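import Pool.Agent.X155.LampEnd

/-! MP_164a7b_al, Q1: there is a finitely generated one-ended group with
`th(n) > n + 2` for infinitely many `n`. -/

namespace Pool.Agent.Results.MP_164a7b_al.DihedralLamps

variable {G : Type} [Group G]

/-- The Cayley graph of `G` with respect to `S`: distinct `g, h` are adjacent if
`g⁻¹ h ∈ S` or `h⁻¹ g ∈ S`. -/
def cayley (S : Set G) : SimpleGraph G where
  Adj g h := g ≠ h ∧ (g⁻¹ * h ∈ S ∨ h⁻¹ * g ∈ S)
  symm := ⟨fun _ _ h => ⟨h.1.symm, h.2.symm⟩⟩
  loopless := ⟨fun _ h => h.1 rfl⟩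

/-- The ball `B(m)` around the identity (empty for `m = -1`). -/
def ball (S : Set G) (m : ℤ) : Set G := {g | ((cayley S).dist 1 g : ℤ) ≤ m}

/-- `G` is infinite and the complement of every finite vertex set has exactly one infinite
connected component. -/
def IsOneEnded (S : Set G) : Prop :=
  Infinite G ∧ ∀ F : Set G, F.Finite →
    ∃! C : ((cayley S).induce Fᶜ).ConnectedComponent, C.supp.Infinite

/-- `B(n-1)^{c,∞}`: the elements outside `B(n-1)` whose component in the complement of `B(n-1)`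
is infinite. -/
def infinitePart (S : Set G) (n : ℕ) : Set G :=
  {g | ∃ hg : g ∈ (ball S ((n : ℤ) - 1))ᶜ,
    (((cayley S).induce (ball S ((n : ℤ) - 1))ᶜ).connectedComponentMk ⟨g, hg⟩).supp.Infinite}

/-- `S(n,r)^∞ = B(n+r) ∩ B(n-1)^{c,∞}`. -/
def annulus (S : Set G) (n r : ℕ) : Set G := ball S ((n : ℤ) + r) ∩ infinitePart S n

/-- The connection thickness: the least `r` such that the graph induced on `S(n,r)^∞` is
connected (`⊤` if there is none). -/
noncomputable def thickness (S : Set G) (n : ℕ) : ℕ∞ :=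
  ⨅ (r : ℕ) (_ : ((cayley S).induce (annulus S n r)).Connected), (r : ℕ∞)

/-- There are a group `G` and a finite generating set `S` of `G` such that `G` is one-ended and
`th(n) > n + 2` for infinitely many `n` (namely for all odd `n ≥ 3`). -/
theorem result : ∃ (G : Type) (_ : Group G) (S : Set G), S.Finite ∧ Subgroup.closure S = ⊤ ∧
    IsOneEnded S ∧ (∀ n : ℕ, 3 ≤ n → Odd n → (n : ℕ∞) + 2 < thickness S n) ∧
    {n : ℕ | (n : ℕ∞) + 2 < thickness S n}.Infinite := by
  have hodd : ∀ n : ℕ, 3 ≤ n → Odd n →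
      (n : ℕ∞) + 2 < thickness (G := Pool.Agent.X155.Lamp.G) Pool.Agent.X155.Lamp.G.S n := by
    rintro n hn ⟨k, rfl⟩
    have h3 : ((2 * k + 1 : ℕ) : ℕ∞) + 2 < ((2 * k + 1 + 3 : ℕ) : ℕ∞) := by
      exact_mod_cast (by omega : 2 * k + 1 + 2 < 2 * k + 1 + 3)
    refine lt_of_lt_of_le h3 ?_
    refine le_iInf₂ fun r hr => ?_
    by_contra hcon
    have hlt : r < 2 * k + 1 + 3 := by
      rw [not_le] at hcon
      exact_mod_cast hcon
    exact Pool.Agent.X155.Lamp.G.not_conn (k := k) (by omega) (r := r) (by omega) hr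
  refine ⟨Pool.Agent.X155.Lamp.G, inferInstance, Pool.Agent.X155.Lamp.G.S,
    Pool.Agent.X155.Lamp.G.S_finite, Pool.Agent.X155.Lamp.G.closure_S,
    Pool.Agent.X155.Lamp.G.oneEnded, hodd, ?_⟩
  refine Set.infinite_of_injective_forall_mem (f := fun k : ℕ => 2 * k + 3) ?_ ?_
  · intro a b h
    simp only at h
    omega
  · intro k
    exact hodd (2 * k + 3) (by omega) ⟨k + 1, by ring⟩

end Pool.Agent.Results.MP_164a7b_al.DihedralLamps
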